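import Pool.Agent.N969.P15.Defs

/-!
# The elementary criterion
-/

set_option autoImplicit false

namespace Run7.h424.N15

open Pool.Agent.N969.P15 (Qc)

theorem sq_iff {p : ℕ} (hp : p.Prime) {b : ℕ} (hb : ¬ p ∣ b) :
    jacobiSym b p = 1 ↔ IsSquare (b : ZMod p) := by
  have : Fact p.Prime := ⟨hp⟩
  have h0 : ((b : ℤ) : ZMod p) ≠ 0 := by
    rw [Int.cast_natCast]
    intro h
    exact hb ((ZMod.natCast_eq_zero_iff b p).1 h)
  rw [← jacobiSym.legendreSym.to_jacobiSym, legendreSym.eq_one_iff p h0, Int.cast_natCast]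

theorem crit_iff {n : ℕ} (h : Squarefree n) :
    (∀ b c : ℕ, b * c = n → (∀ p : ℕ, p.Prime → p ∣ c → IsSquare (b : ZMod p)) →
    (∀ p : ℕ, p.Prime → p ∣ b → IsSquare (c : ZMod p)) → b = 1 ∨ c = 1) ↔ Qc n := by
  have key : ∀ b c : ℕ, b * c = n →
      (((∀ p : ℕ, p.Prime → p ∣ c → IsSquare (b : ZMod p)) ↔
        (∀ p ∈ c.primeFactors, jacobiSym b p = 1)) ∧
      ((∀ p : ℕ, p.Prime → p ∣ b → IsSquare (c : ZMod p)) ↔
        (∀ p ∈ b.primeFactors, jacobiSym c p = 1))) := by
    intro b c hbc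
    have hc0 : c ≠ 0 := by
      rintro rfl
      rw [mul_zero] at hbc
      exact h.ne_zero hbc.symm
    have hb0 : b ≠ 0 := by
      rintro rfl
      rw [zero_mul] at hbc
      exact h.ne_zero hbc.symm
    have hco : b.Coprime c := by
      rw [← hbc] at h
      exact (Nat.squarefree_mul_iff.1 h).1
    constructor
    · constructor
      · intro h1 p hp
        have hp' := Nat.prime_of_mem_primeFactors hp
        have hd := Nat.dvd_of_mem_primeFactors hp
        refine (sq_iff hp' fun hpb => ?_).2 (h1 p hp' hd)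
        exact hp'.one_lt.ne' (Nat.eq_one_of_dvd_coprimes hco hpb hd)
      · intro h1 p hp' hd
        refine (sq_iff hp' fun hpb => ?_).1 (h1 p (Nat.mem_primeFactors.2 ⟨hp', hd, hc0⟩))
        exact hp'.one_lt.ne' (Nat.eq_one_of_dvd_coprimes hco hpb hd)
    · constructor
      · intro h1 p hp
        have hp' := Nat.prime_of_mem_primeFactors hp
        have hd := Nat.dvd_of_mem_primeFactors hp
        refine (sq_iff hp' fun hpb => ?_).2 (h1 p hp' hd)
        exact hp'.one_lt.ne' (Nat.eq_one_of_dvd_coprimes hco hd hpb)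
      · intro h1 p hp' hd
        refine (sq_iff hp' fun hpb => ?_).1 (h1 p (Nat.mem_primeFactors.2 ⟨hp', hd, hb0⟩))
        exact hp'.one_lt.ne' (Nat.eq_one_of_dvd_coprimes hco hd hpb)
  constructor
  · intro h1 b c hbc h2 h3
    exact h1 b c hbc ((key b c hbc).1.2 h2) ((key b c hbc).2.2 h3)
  · intro h1 b c hbc h2 h3
    exact h1 b c hbc ((key b c hbc).1.1 h2) ((key b c hbc).2.1 h3)

end Run7.h424.N15
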